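import Pool.Agent.H73.PHS.Stmts

/-!
Row NDG of the board phs (MP_e1af46_an): a proper holomorphic self-map is not degenerate.
-/

set_option autoImplicit false

open Set Filter Topology MeasureTheory Metric

namespace Pool.PHS

/-- A small multiple of the identity can be added so that the determinant is not zero. -/
private theorem NDG_det (n : ℕ) (A : Cn n →L[ℂ] Cn n) (c : ℝ) (hc : 0 < c) :
    ∃ t : ℝ, 0 < t ∧ t < c ∧ (A + (t : ℂ) • ContinuousLinearMap.id ℂ (Cn n)).det ≠ 0 := by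
  have hfin : (spectrum ℂ ((A : Cn n →ₗ[ℂ] Cn n) : Module.End ℂ (Cn n))).Finite :=
    Module.End.finite_spectrum _
  have hinj : Function.Injective (fun t : ℝ => -(t : ℂ)) := fun a b hab =>
    Complex.ofReal_injective (neg_injective hab)
  have hfin2 : ((fun t : ℝ => -(t : ℂ)) ⁻¹'
      (spectrum ℂ ((A : Cn n →ₗ[ℂ] Cn n) : Module.End ℂ (Cn n)))).Finite :=
    hfin.preimage hinj.injOn
  obtain ⟨t, ht, htn⟩ := (Set.Ioo_infinite hc).exists_notMem_finite hfin2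
  refine ⟨t, ht.1, ht.2, ?_⟩
  have h1 : -(t : ℂ) ∉ spectrum ℂ ((A : Cn n →ₗ[ℂ] Cn n) : Module.End ℂ (Cn n)) := htn
  rw [spectrum.notMem_iff] at h1
  have h2 : IsUnit (((A + (t : ℂ) • ContinuousLinearMap.id ℂ (Cn n) : Cn n →L[ℂ] Cn n) :
      Cn n →ₗ[ℂ] Cn n) : Module.End ℂ (Cn n)) := by
    have h3 : (((A + (t : ℂ) • ContinuousLinearMap.id ℂ (Cn n) : Cn n →L[ℂ] Cn n) :
        Cn n →ₗ[ℂ] Cn n) : Module.End ℂ (Cn n)) =
        -(algebraMap ℂ (Module.End ℂ (Cn n)) (-(t : ℂ)) - (A : Cn n →ₗ[ℂ] Cn n)) := by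
      ext x i
      simp [Module.algebraMap_end_apply]
    rw [h3]
    exact h1.neg
  exact (LinearMap.isUnit_det _ h2).ne_zero

theorem NDG_thm (h1 : DETStmt) (h2 : IDNStmt) (h3 : DEGStmt) (h4 : POSStmt) (h5 : BMPStmt) :
    NDGStmt := by
  intro n D f hDo hDc hf O hO hOD hOne
  by_contra hcon
  push Not at hcon
  have hjac : EqOn (jac f) (fun _ => 0) D :=
    h2 n (jac f) (fun _ => 0) D O hDo hDc.isPreconnected (h1 n f D hDo hf.hol)
      (differentiableOn_const _) hO hOD hOne (fun z hz => hcon z hz)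
  obtain ⟨z₀, hz₀⟩ := hDc.nonempty
  have hw : f z₀ ∈ D := hf.maps hz₀
  obtain ⟨r, hr, hrD⟩ : ∃ r > 0, closedBall (f z₀) (2 * r) ⊆ D := by
    obtain ⟨ε, hε, h⟩ := Metric.isOpen_iff.1 hDo _ hw
    refine ⟨ε / 4, by positivity, fun x hx => h ?_⟩
    rw [mem_closedBall] at hx
    rw [mem_ball]
    linarith
  have hQc := hf.proper (closedBall (f z₀) (2 * r)) hrD (isCompact_closedBall _ _)
  obtain ⟨Q', hQ'c, hQQ', hQ'D⟩ := exists_compact_between hQc hDo inter_subset_left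
  obtain ⟨M, hM⟩ := hQ'c.isBounded.exists_norm_le
  have hz₀Q : z₀ ∈ D ∩ f ⁻¹' closedBall (f z₀) (2 * r) :=
    ⟨hz₀, mem_closedBall_self (by positivity)⟩
  have hz₀U : z₀ ∈ interior Q' := hQQ' hz₀Q
  have hUD : interior Q' ⊆ D := interior_subset.trans hQ'D
  have hM0 : 0 ≤ M := (norm_nonneg _).trans (hM z₀ (interior_subset hz₀U))
  obtain ⟨t₀, ht₀, ht₀c, hdet⟩ := NDG_det n (fderiv ℂ f z₀) (r / (M + 1)) (by positivity)
  have ht₀r : ∀ z ∈ interior Q', t₀ * ‖z‖ < r := by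
    intro z hz
    have h6 := hM z (interior_subset hz)
    have h7 : t₀ * (M + 1) < r := (lt_div_iff₀ (by positivity)).1 ht₀c
    nlinarith
  obtain ⟨ψ, hψ1, hψ0, hψp, hψz⟩ := h5 n (f z₀) r hr
  have hH : DifferentiableOn ℂ (fun z : Cn n => (t₀ : ℂ) • z) (interior Q') :=
    (differentiableOn_id.const_smul (t₀ : ℂ))
  have hfU : DifferentiableOn ℂ f (interior Q') := hf.hol.mono hUD
  have hnorm : ∀ z : Cn n, ‖(t₀ : ℂ) • z‖ = t₀ * ‖z‖ := by
    intro z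
    rw [norm_smul, Complex.norm_real, Real.norm_of_nonneg ht₀.le]
  have hsupp : ∀ t ∈ Icc (0 : ℝ) 1, ∀ z ∈ interior Q', ψ (f z + t • (t₀ : ℂ) • z) ≠ 0 →
      z ∈ D ∩ f ⁻¹' closedBall (f z₀) (2 * r) := by
    intro t ht z hz hne
    refine ⟨hUD hz, ?_⟩
    have h6 : ‖f z + t • (t₀ : ℂ) • z - f z₀‖ < r := by
      by_contra h7
      exact hne (hψz _ (not_lt.1 h7))
    have h8 : ‖t • (t₀ : ℂ) • z‖ < r := by
      rw [norm_smul, hnorm, Real.norm_of_nonneg ht.1]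
      have h9 := ht₀r z hz
      have h10 : 0 ≤ t₀ * ‖z‖ := by positivity
      nlinarith [ht.2]
    show f z ∈ closedBall (f z₀) (2 * r)
    rw [mem_closedBall, dist_eq_norm]
    have h11 : f z - f z₀ = (f z + t • (t₀ : ℂ) • z - f z₀) - t • (t₀ : ℂ) • z := by abel
    rw [h11]
    refine (norm_sub_le _ _).trans ?_
    linarith
  have key := h3 n f (fun z => (t₀ : ℂ) • z) ψ (interior Q')
    (D ∩ f ⁻¹' closedBall (f z₀) (2 * r)) isOpen_interior hfU hH hψ1 hψ0 hQc hQQ' hsupp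
  have hleft : ∫ z in interior Q', ψ (f z) * Complex.normSq (jac f z) = 0 := by
    refine setIntegral_eq_zero_of_forall_eq_zero fun z hz => ?_
    have h6 : jac f z = 0 := hjac (hUD hz)
    rw [h6]
    simp
  have hpos := h4 n (fun z => f z + (t₀ : ℂ) • z) ψ (interior Q')
    (D ∩ f ⁻¹' closedBall (f z₀) (2 * r)) isOpen_interior (hfU.add hH) hψ1 hψ0 hQc hQQ'
    (fun z hz hne => hsupp 1 (right_mem_Icc.2 zero_le_one) z hz (by rwa [one_smul]))
    z₀ hz₀U (hψp _ (by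
      have h6 : f z₀ + (t₀ : ℂ) • z₀ - f z₀ = (t₀ : ℂ) • z₀ := by abel
      show ‖f z₀ + (t₀ : ℂ) • z₀ - f z₀‖ < r
      rw [h6, hnorm]
      exact ht₀r z₀ hz₀U)) (fun O' _ hz' _ => ⟨z₀, hz', by
      have hfd : DifferentiableAt ℂ f z₀ := hf.hol.differentiableAt (hDo.mem_nhds hz₀)
      have h6 : HasFDerivAt (fun z : Cn n => f z + (t₀ : ℂ) • z)
          (fderiv ℂ f z₀ + (t₀ : ℂ) • ContinuousLinearMap.id ℂ (Cn n)) z₀ :=
        hfd.hasFDerivAt.add ((hasFDerivAt_id z₀).const_smul (t₀ : ℂ))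
      unfold jac
      rw [h6.fderiv]
      exact hdet⟩)
  rw [hleft] at key
  exact absurd key (ne_of_lt hpos)

end Pool.PHS
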